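import Pool.Agent.H43.DD.Sign

/-!
# MP_452684_co, Q1: alternation of the single double descent counts

For all `n` and all `2 ≤ i < ⌈n/2⌉`: `dd({i};n) > dd({i+1};n)` if `i` is even and
`dd({i};n) < dd({i+1};n)` if `i` is odd.
-/

set_option autoImplicit false

namespace Pool.Agent.Results.MP_452684_co.Alternation

/-- `DDes(w)` for a permutation `w` of `{1, …, n}`, modelled as a permutation of `Fin n`: the entry
`w_j` of the one-line notation is the value at `⟨j - 1, _⟩` (so the values are shifted by one, which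
does not change comparisons). `i` is a double descent if `2 ≤ i ≤ n - 1` and
`w_{i-1} > w_i > w_{i+1}`. -/
def DDes {n : ℕ} (w : Equiv.Perm (Fin n)) : Set ℕ :=
  {i | ∃ (_ : 2 ≤ i) (_ : i + 1 ≤ n),
    w ⟨i - 2, by omega⟩ > w ⟨i - 1, by omega⟩ ∧ w ⟨i - 1, by omega⟩ > w ⟨i, by omega⟩}

/-- `dd(I;n)`: the number of permutations of `{1, …, n}` whose set of double descents is `I`. -/
noncomputable def dd (I : Set ℕ) (n : ℕ) : ℕ :=
  Nat.card {w : Equiv.Perm (Fin n) // DDes w = I}

open Pool.Agent.H43.DD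

theorem ddes_iff {n i : ℕ} (hi : 2 ≤ i) (hin : i + 1 ≤ n) (w : Equiv.Perm (Fin n)) :
    DDes w = {i} ↔ OneDD n i (vals w) := by
  have key : ∀ j, 2 ≤ j → j + 1 ≤ n → (j ∈ DDes w ↔
      (vals w (j - 1) < vals w (j - 2) ∧ vals w j < vals w (j - 1))) := by
    intro j h1 h2
    rw [vals_lt w (show j - 1 < n by omega), vals_lt w (show j - 2 < n by omega),
      vals_lt w (show j < n by omega)]
    constructor
    · rintro ⟨_, _, h3, h4⟩
      exact ⟨h3, h4⟩
    · rintro ⟨h3, h4⟩
      exact ⟨h1, h2, h3, h4⟩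
  unfold OneDD
  constructor
  · intro h j h1 h2
    rw [← key j h1 h2, h]
    simp
  · intro h
    ext j
    constructor
    · intro hj
      have hj0 := hj
      obtain ⟨h1, h2, -⟩ := hj
      exact (h j h1 h2).1 ((key j h1 h2).1 hj0)
    · intro hj
      have hj' : j = i := hj
      subst hj'
      exact (key j hi hin).2 ((h j hi hin).2 rfl)

theorem dd_eq_cnt {n i : ℕ} (hi : 2 ≤ i) (hin : i + 1 ≤ n) :
    (dd {i} n : ℝ) = cnt n (OneDD n i) := by
  classical
  unfold dd cnt
  rw [Nat.card_eq_fintype_card, Fintype.card_subtype, Finset.sum_boole]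
  congr 2
  ext w
  simp only [Finset.mem_filter, Finset.mem_univ, true_and]
  exact ddes_iff hi hin w

/-- Full answer to Q1 (the conjecture holds). -/
theorem result : ∀ n i : ℕ, 0 < n → 2 ≤ i → i < ⌈(n : ℚ) / 2⌉₊ →
    (Even i → dd {i} n > dd {i + 1} n) ∧ (Odd i → dd {i} n < dd {i + 1} n) := by
  intro n i _ hi hin
  have h2 : 2 * i < n := by
    rw [Nat.lt_ceil] at hin
    have : (2 * i : ℚ) < n := by linarith
    exact_mod_cast this
  have h3 := sign_all (p := i - 1) (q := n - i - 1) (by omega) (by omega)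
  rw [← cnt_diff hi (by omega), ← dd_eq_cnt hi (by omega), ← dd_eq_cnt (by omega) (by omega),
    show i - 1 + 1 = i by omega, ← sub_div] at h3
  have hf : (0 : ℝ) < (n.factorial : ℝ) := by positivity
  constructor
  · intro he
    rw [he.neg_one_pow, one_mul, div_pos_iff_of_pos_right hf] at h3
    have : (dd {i + 1} n : ℝ) < dd {i} n := by linarith
    exact_mod_cast this
  · intro ho
    rw [ho.neg_one_pow, neg_one_mul, ← neg_div, div_pos_iff_of_pos_right hf] at h3
    have : (dd {i} n : ℝ) < dd {i + 1} n := by linarith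
    exact_mod_cast this

end Pool.Agent.Results.MP_452684_co.Alternation
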